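import Pool.Agent.Helper83.CO.St

/-! Project CO (MP_140278_ag), module BND: completeness gives bounds. -/

set_option autoImplicit false

namespace Pool.Agent.Helper45.CO

open Pool.Agent.Helper53.CX Pool.Agent.Helper83.CO MvPolynomial
open scoped BigOperators

theorem BND_key {k : ℕ} {P : Finset ℂ} {D : Finset (Option ℂ × (Fin (k + 1) → ℤ))} (h : IsC1 P D)
    (b : Option ℂ → ℤ) (β : Fin k → ℤ) :
    ∃ C : ℝ, 0 ≤ C ∧ ∀ (z : Option ℂ → ℝ) (α : Fin k → ℝ) (c : ℝ), 0 ≤ c →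
      (∀ e ∈ D, - c ≤ prR e.2 (z e.1) α) → ∑ s ∈ crit P, z s ≤ 0 →
        - (C * c) ≤ ∑ s ∈ crit P, (b s : ℝ) * z s + ∑ j, (β j : ℝ) * α j := by
  obtain ⟨N, t, a, hN, h1, h2⟩ := h.complete b β
  have hC : (0 : ℝ) ≤ ∑ e ∈ D, (a e : ℝ) := Finset.sum_nonneg fun e _ => Nat.cast_nonneg _
  refine ⟨∑ e ∈ D, (a e : ℝ), hC, ?_⟩
  intro z α c hc hz hs
  have hlow : - ((∑ e ∈ D, (a e : ℝ)) * c) ≤ ∑ e ∈ D, (a e : ℝ) * prR e.2 (z e.1) α := by
    rw [Finset.sum_mul, ← Finset.sum_neg_distrib]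
    refine Finset.sum_le_sum fun e he => ?_
    have := mul_le_mul_of_nonneg_left (hz e he) (Nat.cast_nonneg (α := ℝ) (a e))
    linarith
  have hA : ∑ e ∈ D, (a e : ℝ) * ((e.2 0 : ℝ) * z e.1) = ∑ s ∈ crit P, ((N : ℝ) * b s + t) * z s := by
    rw [← Finset.sum_fiberwise_of_maps_to (s := D) (t := crit P) (g := fun e => e.1) (fun e he => (h.mem e he).1)]
    refine Finset.sum_congr rfl fun s hs' => ?_
    have e1 : ((N : ℝ) * b s + t) = ∑ e ∈ D.filter (fun e => e.1 = s), (a e : ℝ) * (e.2 0 : ℝ) := by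
      have := congrArg (fun x : ℤ => (x : ℝ)) (h1 s hs')
      push_cast at this
      exact this
    rw [e1, Finset.sum_mul]
    refine Finset.sum_congr rfl fun e he => ?_
    rw [(Finset.mem_filter.1 he).2]
    ring
  have hB : ∑ e ∈ D, (a e : ℝ) * ∑ j : Fin k, (e.2 j.succ : ℝ) * α j = ∑ j, ((N : ℝ) * β j) * α j := by
    have e0 : ∀ e ∈ D, (a e : ℝ) * ∑ j : Fin k, (e.2 j.succ : ℝ) * α j =
        ∑ j : Fin k, (a e : ℝ) * (e.2 j.succ : ℝ) * α j := by
      intro e _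
      rw [Finset.mul_sum]
      exact Finset.sum_congr rfl fun j _ => by ring
    rw [Finset.sum_congr rfl e0, Finset.sum_comm]
    refine Finset.sum_congr rfl fun j _ => ?_
    have e1 : ((N : ℝ) * β j) = ∑ e ∈ D, (a e : ℝ) * (e.2 j.succ : ℝ) := by
      have := congrArg (fun x : ℤ => (x : ℝ)) (h2 j)
      push_cast at this
      exact this
    rw [e1, Finset.sum_mul]
  have htot : ∑ e ∈ D, (a e : ℝ) * prR e.2 (z e.1) α =
      (N : ℝ) * (∑ s ∈ crit P, (b s : ℝ) * z s + ∑ j, (β j : ℝ) * α j) + t * ∑ s ∈ crit P, z s := by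
    have e0 : ∀ e ∈ D, (a e : ℝ) * prR e.2 (z e.1) α =
        (a e : ℝ) * ((e.2 0 : ℝ) * z e.1) + (a e : ℝ) * ∑ j : Fin k, (e.2 j.succ : ℝ) * α j := by
      intro e _
      unfold prR
      ring
    rw [Finset.sum_congr rfl e0, Finset.sum_add_distrib, hA, hB]
    have e1 : ∑ s ∈ crit P, ((N : ℝ) * b s + t) * z s =
        (N : ℝ) * ∑ s ∈ crit P, (b s : ℝ) * z s + t * ∑ s ∈ crit P, z s := by
      rw [Finset.mul_sum, Finset.mul_sum, ← Finset.sum_add_distrib]
      exact Finset.sum_congr rfl fun s _ => by ring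
    have e2 : ∑ j, ((N : ℝ) * β j) * α j = (N : ℝ) * ∑ j, (β j : ℝ) * α j := by
      rw [Finset.mul_sum]
      exact Finset.sum_congr rfl fun j _ => by ring
    rw [e1, e2]
    ring
  rw [htot] at hlow
  have ht : (t : ℝ) * ∑ s ∈ crit P, z s ≤ 0 := mul_nonpos_of_nonneg_of_nonpos (Nat.cast_nonneg _) hs
  have hN1 : (1 : ℝ) ≤ N := by exact_mod_cast hN
  have hCc : 0 ≤ (∑ e ∈ D, (a e : ℝ)) * c := mul_nonneg hC hc
  generalize ∑ s ∈ crit P, (b s : ℝ) * z s + ∑ j, (β j : ℝ) * α j = L at *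
  rcases le_or_gt 0 L with hL | hL
  · linarith
  · have : (N : ℝ) * L ≤ L := by nlinarith
    linarith

theorem hBND : StBND := by
  intro k P D h
  choose Cf hC0 hC using BND_key (k := k) h
  set C₀ : ℝ := ∑ s ∈ crit P, (Cf (Pi.single s 1) 0 + Cf (Pi.single s (-1)) 0) +
    ∑ j : Fin k, (Cf 0 (Pi.single j 1) + Cf 0 (Pi.single j (-1))) with hC₀
  have n1 : ∀ s ∈ crit P, 0 ≤ Cf (Pi.single s 1) 0 + Cf (Pi.single s (-1)) 0 :=
    fun s _ => add_nonneg (hC0 _ _) (hC0 _ _)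
  have n2 : ∀ j ∈ (Finset.univ : Finset (Fin k)), 0 ≤ Cf 0 (Pi.single j 1) + Cf 0 (Pi.single j (-1)) :=
    fun j _ => add_nonneg (hC0 _ _) (hC0 _ _)
  refine ⟨C₀, add_nonneg (Finset.sum_nonneg n1) (Finset.sum_nonneg n2), ?_⟩
  intro z α c hc hz hs
  constructor
  · intro s hsP
    have e1 := hC (Pi.single s 1) 0 z α c hc hz hs
    have e2 := hC (Pi.single s (-1)) 0 z α c hc hz hs
    have hle := Finset.single_le_sum n1 hsP
    have s1 : ∀ ε : ℤ, ∑ s' ∈ crit P, ((Pi.single s ε : Option ℂ → ℤ) s' : ℝ) * z s' = ε * z s := by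
      intro ε
      rw [Finset.sum_eq_single s]
      · rw [Pi.single_eq_same]
      · intro s' _ hne
        rw [Pi.single_eq_of_ne hne]
        simp
      · intro hn
        exact absurd hsP hn
    have s2 : ∑ j : Fin k, (((0 : Fin k → ℤ) j : ℤ) : ℝ) * α j = 0 := by simp
    rw [s1, s2] at e1 e2
    push_cast at e1 e2
    have a1 := mul_nonneg (hC0 (Pi.single s 1) 0) hc
    have a2 := mul_nonneg (hC0 (Pi.single s (-1)) 0) hc
    have a3 : (Cf (Pi.single s 1) 0 + Cf (Pi.single s (-1)) 0) * c ≤ C₀ * c := by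
      refine mul_le_mul_of_nonneg_right ?_ hc
      have := Finset.sum_nonneg n2
      linarith
    rw [abs_le]
    constructor <;> nlinarith
  · intro j
    have e1 := hC 0 (Pi.single j 1) z α c hc hz hs
    have e2 := hC 0 (Pi.single j (-1)) z α c hc hz hs
    have hle := Finset.single_le_sum n2 (Finset.mem_univ j)
    have s1 : ∀ ε : ℤ, ∑ j' : Fin k, ((Pi.single j ε : Fin k → ℤ) j' : ℝ) * α j' = ε * α j := by
      intro ε
      rw [Finset.sum_eq_single j]
      · rw [Pi.single_eq_same]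
      · intro j' _ hne
        rw [Pi.single_eq_of_ne hne]
        simp
      · intro hn
        exact absurd (Finset.mem_univ j) hn
    have s2 : ∑ s ∈ crit P, (((0 : Option ℂ → ℤ) s : ℤ) : ℝ) * z s = 0 := by simp
    rw [s1, s2] at e1 e2
    push_cast at e1 e2
    have a1 := mul_nonneg (hC0 0 (Pi.single j 1)) hc
    have a2 := mul_nonneg (hC0 0 (Pi.single j (-1))) hc
    have a3 : (Cf 0 (Pi.single j 1) + Cf 0 (Pi.single j (-1))) * c ≤ C₀ * c := by
      refine mul_le_mul_of_nonneg_right ?_ hc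
      have := Finset.sum_nonneg n1
      linarith
    rw [abs_le]
    constructor <;> nlinarith

end Pool.Agent.Helper45.CO
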